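import Mathlib
import Pool.Agent.LibBR40.Main

/-! # Open discrete maps with branch set of dimension below `n - 2`: local index at least six

If the branch set of an open discrete map of an open set of `ℝ^n`, `n ≥ 3`, has covering dimension at most `n - 3`, then
every neighbourhood of every branch point contains six points with the same image. -/

set_option autoImplicit false

namespace Pool.Agent.Results.MP_5b12c2_an.IndexSix

/-- Let `n ≥ 3`, `D ⊆ ℝ^n` open, `f` continuous, open and discrete on `D` (for instance a nonconstant quasiregular map), `B`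
its branch set, of covering dimension at most `n - 3` (the condition of the frozen statement). Then the local index of `f`
at every branch point is at least `6`: every neighbourhood `W` of a point of `B` contains six points of `D` with the same
image. -/
theorem result : ∀ n : ℕ, 3 ≤ n →
    ∀ (D : Set (EuclideanSpace ℝ (Fin n)))
      (f : EuclideanSpace ℝ (Fin n) → EuclideanSpace ℝ (Fin n)),
      IsOpen D → ContinuousOn f D →
      (∀ U : Set (EuclideanSpace ℝ (Fin n)), IsOpen U → U ⊆ D → IsOpen (f '' U)) →
      (∀ x ∈ D, ∃ ε > (0 : ℝ), ∀ y ∈ D, dist y x < ε → f y = f x → y = x) →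
      ∀ B : Set (EuclideanSpace ℝ (Fin n)),
        B = {x | x ∈ D ∧ ∀ U : Set (EuclideanSpace ℝ (Fin n)),
              IsOpen U → x ∈ U → U ⊆ D → ¬ Set.InjOn f U} →
        (∀ (m : ℕ) (U : Fin m → Set (EuclideanSpace ℝ (Fin n))),
            (∀ i, IsOpen (U i)) → B ⊆ ⋃ i, U i →
            ∃ V : Fin m → Set (EuclideanSpace ℝ (Fin n)),
              (∀ i, IsOpen (V i)) ∧ (∀ i, V i ⊆ U i) ∧ B ⊆ ⋃ i, V i ∧
              ∀ x ∈ B, Set.ncard {i : Fin m | x ∈ V i} ≤ n - 2) →
        ∀ x ∈ B, ∀ W : Set (EuclideanSpace ℝ (Fin n)), IsOpen W → x ∈ W →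
          ∃ T : Finset (EuclideanSpace ℝ (Fin n)), T.card = 6 ∧
            (T : Set (EuclideanSpace ℝ (Fin n))) ⊆ W ∩ D ∧ ∀ t ∈ T, ∀ t' ∈ T, f t = f t' := by
  intro n hn D f hD hf hopen hdisc B hB hdim x hx W hW hxW
  exact LibBR40.main hn D f hD hf hopen hdisc B hB hdim x hx W hW hxW

end Pool.Agent.Results.MP_5b12c2_an.IndexSix
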