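import Mathlib
import Pool.Agent.LibTN40.Main

/-! # Open discrete maps branched over necklaces

An open discrete map of an open set of `ℝ^n`, `n ≥ 3`, whose branch values lie in a set with arbitrarily fine necklaces
(such as the Cantor sets of Antoine and Blankinship, where the pieces are solid tori and the collars have abelian
fundamental groups) is a local homeomorphism. -/

set_option autoImplicit false

namespace Pool.Agent.Results.MP_5b12c2_an.Necklaces

/-- Let `n ≥ 3`, and let `A ⊆ ℝ^n` be a set which has, for every `ε > 0`, a finite cover by compact sets `L j` with connected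
complements, inside pairwise disjoint open sets `W j` of diameter at most `ε`, such that `W j \ L j` is path connected and all
subgroups of finite index of its fundamental group are normal (for instance the group is abelian).  Let `D ⊆ ℝ^n` be open
and `f` continuous, open and discrete on `D`, with branch set `B`.  If `f(B) ⊆ A`, then `B` is empty. -/
theorem result : ∀ n : ℕ, 3 ≤ n → ∀ A : Set (EuclideanSpace ℝ (Fin n)),
    (∀ ε > (0 : ℝ), ∃ (m : ℕ) (L W : Fin m → Set (EuclideanSpace ℝ (Fin n))),
      (∀ j, IsCompact (L j)) ∧ (∀ j, IsOpen (W j)) ∧ (∀ j, L j ⊆ W j) ∧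
      (∀ i j, i ≠ j → Disjoint (W i) (W j)) ∧ (∀ j, ∀ y ∈ W j, ∀ z ∈ W j, dist y z < ε) ∧
      (∀ j, IsConnected (L j)ᶜ) ∧ (∀ j, IsPathConnected (W j \ L j)) ∧
      (∀ j (t : ↥(W j \ L j)) (H : Subgroup (FundamentalGroup ↥(W j \ L j) t)),
        H.FiniteIndex → H.Normal) ∧
      A ⊆ ⋃ j, L j) →
    ∀ (D : Set (EuclideanSpace ℝ (Fin n)))
      (f : EuclideanSpace ℝ (Fin n) → EuclideanSpace ℝ (Fin n)),
      IsOpen D → ContinuousOn f D →
      (∀ U : Set (EuclideanSpace ℝ (Fin n)), IsOpen U → U ⊆ D → IsOpen (f '' U)) →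
      (∀ x ∈ D, ∃ ε > (0 : ℝ), ∀ y ∈ D, dist y x < ε → f y = f x → y = x) →
      ∀ B : Set (EuclideanSpace ℝ (Fin n)),
        B = {x | x ∈ D ∧ ∀ U : Set (EuclideanSpace ℝ (Fin n)),
              IsOpen U → x ∈ U → U ⊆ D → ¬ Set.InjOn f U} →
        f '' B ⊆ A → B = ∅ := by
  intro n hn A hA D f hD hf hopen hdisc B hB hBA
  exact LibTN40.main hn A hA D f hD hf hopen hdisc B hB hBA

end Pool.Agent.Results.MP_5b12c2_an.Necklaces
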